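import Pool.Agent.R141.CM.Power

/-!
There is no absolute constant `d` such that the nerve of every family with comatching number at
most two is `d`-Leray: for every `n` there is a finite family of comatching number at most two
whose nerve has nonzero `n`-th reduced rational homology.
-/

namespace Pool.Agent.Results.MP_587f0f_co.PowerConstruction

open Pool.Agent.R141.CM

theorem result :
    (∀ n : ℕ, ∃ (ι X : Type) (F : ι → Set X), Finite ι ∧ Finite X ∧ Function.Injective F ∧
      ComatchingLE F 2 ∧ ¬ HomZero F Set.univ n) ∧
    ¬ ∃ d : ℕ, 0 < d ∧ ∀ (X ι : Type) (F : ι → Set X), Function.Injective F →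
      ComatchingLE F 2 → Leray F d := by
  constructor
  · intro n
    obtain ⟨ι, X, F, h1, h2, _, h4, _, h6, h7⟩ := good_all n
    exact ⟨ι, X, F, h1, h2, h4, h6, h7⟩
  · rintro ⟨d, _, hd⟩
    obtain ⟨ι, X, F, h1, h2, _, h4, _, h6, h7⟩ := good_all d
    exact h7 (hd X ι F h4 h6 Set.univ d (le_refl d))

end Pool.Agent.Results.MP_587f0f_co.PowerConstruction
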